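import Mathlib
import Pool.Agent.Helper605.FT.A
import Pool.Agent.Helper605.FT.AL
import Pool.Agent.Helper605.FT.Fin
import Pool.Agent.Helper732.FT2.A3
import Pool.Agent.Helper722.FX.Defs

set_option autoImplicit false

namespace Pool.Agent.Helper868.FTX

open Pool.Agent.Helper605.FT Pool.Agent.Helper732.FT2 Pool.Agent.Helper722.FX

theorem T_eq {n k : ℕ} (hk : k ≤ n) : T n k = TT n k := by
  unfold T TT
  rw [show n - k + 4 = n + 4 - k by omega]

theorem TT_card' {n k : ℕ} (h4 : 4 ≤ k) (hk : k ≤ n) : (TT n k).card = k := by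
  unfold TT
  rw [Finset.card_union_of_disjoint]
  · rw [Nat.card_Icc]
    have : ({1, 2, 3} : Finset ℕ).card = 3 := by decide
    rw [this]; omega
  · rw [Finset.disjoint_left]
    intro a ha hb
    simp only [Finset.mem_insert, Finset.mem_singleton, Finset.mem_Icc] at ha hb
    omega

theorem TT_sub {n k : ℕ} (h4 : 4 ≤ k) (hk : k ≤ n) : TT n k ⊆ Finset.Icc 1 n := by
  unfold TT
  intro a ha
  simp only [Finset.mem_union, Finset.mem_insert, Finset.mem_singleton, Finset.mem_Icc] at ha ⊢
  omega

theorem TT_mono {n k l : ℕ} (h : k ≤ l) : TT n k ⊆ TT n l := by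
  unfold TT
  intro a ha
  simp only [Finset.mem_union, Finset.mem_insert, Finset.mem_singleton, Finset.mem_Icc] at ha ⊢
  omega

/-- the state of the path after phase `k` -/
structure HI (n top : ℕ) (v c : ℕ → List (Finset ℕ)) (k : ℕ) (L : List (Finset ℕ)) : Prop where
  ok : Ok L
  head : L.head? = some ∅
  last : L.getLast? = some (insert (n + 1) (E n k))
  dv : ∀ a ∈ L, ∀ l, k + 1 ≤ l → l ≤ top → ∀ b ∈ v l, ¬ b ⊆ a
  dc : ∀ a ∈ L, ∀ l, k + 1 ≤ l → l + 1 ≤ n → ∀ b ∈ c l, ¬ insert (n + 1) b ⊆ a
  mem : ∀ a ∈ L, (a.erase (n + 1)).card ≤ k ∨ ∃ j, 1 ≤ j ∧ j ≤ k ∧ a ∈ v j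
  sub : ∀ a ∈ L, a ⊆ Finset.Icc 1 (n + 1)
  len : L.length + k = 4 + 2 * ((k - 1) / 2) + 2 * ∑ j ∈ Finset.Icc 1 k, n.choose j

/-- adding `x T_{k+1}` -/
theorem HI.addT {n top k : ℕ} {v c : ℕ → List (Finset ℕ)} {S : List ℕ} (hv : ASide n top v)
    (hc : CSide n S c) (hn : 13 ≤ n) (htop : top + 1 ≤ n) (h3 : 3 ≤ k) (hk : k ≤ top)
    {L : List (Finset ℕ)} (h : HI n top v c k L) :
    Ok (L ++ [insert (n + 1) (TT n (k + 1))]) ∧
    (∀ a ∈ L ++ [insert (n + 1) (TT n (k + 1))], ∀ l, k + 2 ≤ l → l ≤ top → ∀ b ∈ v l, ¬ b ⊆ a) ∧
    (∀ a ∈ L ++ [insert (n + 1) (TT n (k + 1))], ∀ l, k + 1 ≤ l → l + 1 ≤ n → ∀ b ∈ c l,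
      ¬ insert (n + 1) b ⊆ a) := by
  have hxv : ∀ j, 1 ≤ j → j ≤ top → ∀ a ∈ v j, n + 1 ∉ a := by
    intro j h1 h2 a ha h
    have := hv.sub j h1 h2 a ha h
    simp at this
  have hxc : ∀ j, 1 ≤ j → j + 1 ≤ n → ∀ a ∈ c j, n + 1 ∉ a := by
    intro j h1 h2 a ha h
    have := hc.sub j h1 h2 a ha h
    simp at this
  have hxT : n + 1 ∉ TT n (k + 1) := by
    intro h'
    have := TT_sub (by omega) (by omega) h'
    simp at this
  refine ⟨?_, ?_, ?_⟩
  · refine h.ok.append_strong (by simp [Ok]) ?_ ?_
    · intro a ha b hb
      rw [h.last] at ha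
      simp only [Option.mem_def, Option.some.injEq, List.head?_cons] at ha hb
      subst ha hb
      refine Or.inl ⟨2, ?_, ?_⟩
      · unfold E
        simp only [Finset.mem_insert, Finset.mem_union, Finset.mem_singleton, Finset.mem_Icc]
        omega
      · unfold E TT
        ext y
        simp only [Finset.mem_insert, Finset.mem_union, Finset.mem_singleton, Finset.mem_Icc]
        omega
    · intro a ha b hb hba
      simp only [List.mem_singleton] at hb
      subst hb
      rcases h.mem a ha with h1 | ⟨j, hj1, hj2, hj⟩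
      · have h2 : TT n (k + 1) ⊆ a.erase (n + 1) := by
          intro y hy
          rw [Finset.mem_erase]
          refine ⟨?_, hba (Finset.mem_insert_of_mem hy)⟩
          rintro rfl; exact hxT hy
        have h3 := Finset.card_le_card h2
        rw [TT_card' (by omega) (by omega)] at h3
        omega
      · exact hxv j hj1 (by omega) a hj (hba (Finset.mem_insert_self _ _))
  · intro a ha l hl1 hl2 b hb hba
    rcases List.mem_append.1 ha with ha | ha
    · exact h.dv a ha l (by omega) hl2 b hb hba
    · simp only [List.mem_singleton] at ha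
      subst ha
      have h1 := sub_of_sub_ins (hxv l (by omega) hl2 b hb) hba
      have h2 := Finset.card_le_card h1
      rw [TT_card' (by omega) (by omega)] at h2
      have := hv.card l (by omega) hl2 b hb
      omega
  · intro a ha l hl1 hl2 b hb hba
    rcases List.mem_append.1 ha with ha | ha
    · exact h.dc a ha l hl1 hl2 b hb hba
    · simp only [List.mem_singleton] at ha
      subst ha
      have h1 := sub_of_ins_sub (hxc l (by omega) hl2 b hb) hba
      refine hc.inv l (by omega) hl2 b hb ?_
      rw [T_eq (by omega)]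
      exact h1.trans (TT_mono hl1)

theorem HI.step {n top k : ℕ} {v c : ℕ → List (Finset ℕ)} (hv : ASide n top v)
    (hc : CSide n (SF n) c) (hn : 13 ≤ n) (htop : top + 1 ≤ n) (h3 : 3 ≤ k) (hk : k + 1 ≤ top)
    {L : List (Finset ℕ)} (h : HI n top v c k L) :
    HI n top v c (k + 1) (((L ++ [insert (n + 1) (TT n (k + 1))]) ++ v (k + 1)) ++
      (c (k + 1)).map (insert (n + 1))) := by
  obtain ⟨ok1, dv1, dc1⟩ := h.addT hv hc hn htop h3 (by omega)
  have hxv : ∀ j, 1 ≤ j → j ≤ top → ∀ a ∈ v j, n + 1 ∉ a := by
    intro j h1 h2 a ha h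
    have := hv.sub j h1 h2 a ha h
    simp at this
  have hxc : ∀ j, 1 ≤ j → j + 1 ≤ n → ∀ a ∈ c j, n + 1 ∉ a := by
    intro j h1 h2 a ha h
    have := hc.sub j h1 h2 a ha h
    simp at this
  have hxT : n + 1 ∉ TT n (k + 1) := by
    intro h'
    have := TT_sub (by omega) (by omega) h'
    simp at this
  have hRR : RR n (k + 1) = TT n (k + 1) := by
    unfold RR
    rw [if_neg (by omega), if_neg (by omega), if_neg (by omega)]
  have hcard := TT_card' (n := n) (k := k + 1) (by omega) (by omega)
  have ok2 : Ok ((L ++ [insert (n + 1) (TT n (k + 1))]) ++ v (k + 1)) := by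
    refine ok1.append (hv.ok _ (by omega) hk) ?_ ?_ ?_
    · intro a ha b hb
      rw [List.getLast?_concat] at ha
      rw [hv.head (k + 1) (by omega) hk, hRR] at hb
      simp only [Option.mem_def, Option.some.injEq] at ha hb
      subst ha hb
      exact adj_ins' hxT
    · intro a ha b hb
      rw [List.dropLast_concat] at ha
      exact h.dv a ha (k + 1) le_rfl hk b hb
    · intro a ha b hb hba
      rw [List.getLast?_concat] at ha
      simp only [Option.mem_def, Option.some.injEq] at ha
      subst ha
      have hbm := List.mem_of_mem_tail hb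
      have h1 := sub_of_sub_ins (hxv (k + 1) (by omega) hk b hbm) hba
      have h2 := hv.card (k + 1) (by omega) hk b hbm
      have h3 : b = TT n (k + 1) := by
        apply Finset.eq_of_subset_of_card_le h1
        omega
      subst h3
      refine not_mem_tail_of_nodup (Ok.nodup _ (hv.ok (k + 1) (by omega) hk)) ?_ hb
      rw [hv.head (k + 1) (by omega) hk, hRR]
  have hSx : n + 1 ∉ ((SF n).take (k + 1)).toFinset := by
    have := List.mem_of_head? (hc.head (k + 1) (by omega) (by omega))
    exact hxc _ (by omega) (by omega) _ this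
  have ok3 : Ok (((L ++ [insert (n + 1) (TT n (k + 1))]) ++ v (k + 1)) ++
      (c (k + 1)).map (insert (n + 1))) := by
    refine ok2.append_strong ((hc.ok _ (by omega) (by omega)).ins (hxc _ (by omega) (by omega))) ?_ ?_
    · intro a ha b hb
      rw [List.getLast?_append, hv.last (k + 1) (by omega) hk] at ha
      rw [List.head?_map, hc.head (k + 1) (by omega) (by omega)] at hb
      simp only [Option.some_or, Option.mem_def, Option.some.injEq, Option.map_some] at ha hb
      subst ha hb
      exact adj_ins hSx
    · intro a ha b hb hba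
      rw [List.mem_map] at hb
      obtain ⟨b', hb', rfl⟩ := hb
      rcases List.mem_append.1 ha with ha | ha
      · exact dc1 a ha (k + 1) le_rfl (by omega) b' hb' hba
      · exact hxv _ (by omega) hk a ha (hba (Finset.mem_insert_self _ _))
  refine ⟨ok3, ?_, ?_, ?_, ?_, ?_, ?_, ?_⟩
  · rw [List.append_assoc, List.append_assoc, List.head?_append, h.head]; rfl
  · rw [List.getLast?_append, List.getLast?_map, hc.last (k + 1) (by omega) (by omega)]
    simp
  · intro a ha l hl1 hl2 b hb hba
    rcases List.mem_append.1 ha with ha | ha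
    · rcases List.mem_append.1 ha with ha | ha
      · exact dv1 a ha l (by omega) hl2 b hb hba
      · exact hv.cross (k + 1) l (by omega) (by omega) hl2 a ha b hb hba
    · rw [List.mem_map] at ha
      obtain ⟨a', ha', rfl⟩ := ha
      have h1 := sub_of_sub_ins (hxv l (by omega) hl2 b hb) hba
      have h2 := Finset.card_le_card h1
      have h3 := hv.card l (by omega) hl2 b hb
      have h4 := hc.card (k + 1) (by omega) (by omega) a' ha'
      omega
  · intro a ha l hl1 hl2 b hb hba
    rcases List.mem_append.1 ha with ha | ha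
    · rcases List.mem_append.1 ha with ha | ha
      · exact dc1 a ha l (by omega) hl2 b hb hba
      · exact hxv _ (by omega) hk a ha (hba (Finset.mem_insert_self _ _))
    · rw [List.mem_map] at ha
      obtain ⟨a', ha', rfl⟩ := ha
      exact hc.cross (k + 1) l (by omega) (by omega) hl2 a' ha' b hb
        (sub_of_ins_sub (hxc l (by omega) hl2 b hb) hba)
  · intro a ha
    rcases List.mem_append.1 ha with ha | ha
    · rcases List.mem_append.1 ha with ha | ha
      · rcases List.mem_append.1 ha with ha | ha
        · rcases h.mem a ha with h1 | ⟨j, hj1, hj2, hj⟩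
          · left; omega
          · exact Or.inr ⟨j, hj1, by omega, hj⟩
        · simp only [List.mem_singleton] at ha
          subst ha
          left
          rw [Finset.erase_insert hxT]
          omega
      · exact Or.inr ⟨k + 1, by omega, le_rfl, ha⟩
    · rw [List.mem_map] at ha
      obtain ⟨a', ha', rfl⟩ := ha
      left
      rw [Finset.erase_insert (hxc (k + 1) (by omega) (by omega) a' ha')]
      have h4 := hc.card (k + 1) (by omega) (by omega) a' ha'
      omega
  · intro a ha
    have hsub : Finset.Icc 1 n ⊆ Finset.Icc 1 (n + 1) := Finset.Icc_subset_Icc_right (by omega)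
    rcases List.mem_append.1 ha with ha | ha
    · rcases List.mem_append.1 ha with ha | ha
      · rcases List.mem_append.1 ha with ha | ha
        · exact h.sub a ha
        · simp only [List.mem_singleton] at ha
          subst ha
          refine Finset.insert_subset (by simp) ((TT_sub (by omega) (by omega)).trans hsub)
      · exact (hv.sub _ (by omega) hk a ha).trans hsub
    · rw [List.mem_map] at ha
      obtain ⟨a', ha', rfl⟩ := ha
      refine Finset.insert_subset (by simp) ((hc.sub _ (by omega) (by omega) a' ha').trans hsub)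
  · have h1 := h.len
    have h2 := hv.len (k + 1) (by omega) hk
    have h4 := hc.len (k + 1) (by omega) (by omega)
    have hpos : 0 < (n - 1).choose (k + 1 - 1) := Nat.choose_pos (by omega)
    have h5 : n.choose (k + 1) = (n - 1).choose (k + 1 - 1) + (n - 1).choose (k + 1) := by
      obtain ⟨m, rfl⟩ : ∃ m, n = m + 1 := ⟨n - 1, by omega⟩
      simp [Nat.choose_succ_succ]
    rw [Finset.sum_Icc_succ_top (by omega)]
    simp only [List.length_append, List.length_map, List.length_singleton]
    have h6 : dl (k + 1) + 2 * ((k - 1) / 2) = 2 * ((k + 1 - 1) / 2) := by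
      unfold dl
      split_ifs with h <;> omega
    omega


/-- the state of the path in the low phases -/
structure HJ (n top : ℕ) (v c : ℕ → List (Finset ℕ)) (k : ℕ) (L : List (Finset ℕ)) : Prop where
  ok : Ok L
  dv : ∀ a ∈ L, ∀ l, k + 1 ≤ l → l ≤ top → ∀ b ∈ v l, ¬ b ⊆ a
  dc : ∀ a ∈ L, ∀ l, k + 1 ≤ l → l + 1 ≤ n → ∀ b ∈ c l, ¬ insert (n + 1) b ⊆ a
  mem : ∀ a ∈ L, (a.erase (n + 1)).card ≤ k ∨ ∃ j, 1 ≤ j ∧ j ≤ k ∧ a ∈ v j
  sub : ∀ a ∈ L, a ⊆ Finset.Icc 1 (n + 1)

theorem HJ.step {n top k : ℕ} {v c : ℕ → List (Finset ℕ)} {S : List ℕ} (hv : ASide n top v)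
    (hc : CSide n S c) (hS : ∀ k, 1 ≤ k → k ≤ top → (S.take k).toFinset = ((SF n).take k).toFinset)
    (hn : 13 ≤ n) (htop : top + 1 ≤ n) (hk : k + 1 ≤ top)
    {L : List (Finset ℕ)} (h : HJ n top v c k L) (g : Finset ℕ)
    (hlast : ∀ a ∈ L.getLast?, a = insert (n + 1) g) (hdrop : ∀ a ∈ L.dropLast, ¬ g ⊆ a)
    (hgx : n + 1 ∉ g) (hgc : g.card = k) (hgs : g ⊆ Finset.Icc 1 n) (hadj : Adj g (RR n (k + 1))) :
    HJ n top v c (k + 1) (((L ++ [g]) ++ v (k + 1)) ++ (c (k + 1)).map (insert (n + 1))) := by
  have hxv : ∀ j, 1 ≤ j → j ≤ top → ∀ a ∈ v j, n + 1 ∉ a := by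
    intro j h1 h2 a ha h
    have := hv.sub j h1 h2 a ha h
    simp at this
  have hxc : ∀ j, 1 ≤ j → j + 1 ≤ n → ∀ a ∈ c j, n + 1 ∉ a := by
    intro j h1 h2 a ha h
    have := hc.sub j h1 h2 a ha h
    simp at this
  have ok1 : Ok (L ++ [g]) := by
    refine h.ok.append (by simp [Ok]) ?_ ?_ ?_
    · intro a ha b hb
      simp only [Option.mem_def, Option.some.injEq, List.head?_cons] at hb
      subst hb
      rw [hlast a ha]
      exact adj_ins' hgx
    · intro a ha b hb
      simp only [List.mem_singleton] at hb
      subst hb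
      exact hdrop a ha
    · intro a ha b hb
      simp at hb
  have dv1 : ∀ a ∈ L ++ [g], ∀ l, k + 1 ≤ l → l ≤ top → ∀ b ∈ v l, ¬ b ⊆ a := by
    intro a ha l hl1 hl2 b hb hba
    rcases List.mem_append.1 ha with ha | ha
    · exact h.dv a ha l (by omega) hl2 b hb hba
    · simp only [List.mem_singleton] at ha
      subst ha
      have h2 := Finset.card_le_card hba
      have := hv.card l (by omega) hl2 b hb
      omega
  have dc1 : ∀ a ∈ L ++ [g], ∀ l, k + 1 ≤ l → l + 1 ≤ n → ∀ b ∈ c l, ¬ insert (n + 1) b ⊆ a := by
    intro a ha l hl1 hl2 b hb hba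
    rcases List.mem_append.1 ha with ha | ha
    · exact h.dc a ha l hl1 hl2 b hb hba
    · simp only [List.mem_singleton] at ha
      subst ha
      exact hgx (hba (Finset.mem_insert_self _ _))
  have ok2 : Ok ((L ++ [g]) ++ v (k + 1)) := by
    refine ok1.append_strong (hv.ok _ (by omega) hk) ?_ ?_
    · intro a ha b hb
      rw [List.getLast?_concat] at ha
      rw [hv.head (k + 1) (by omega) hk] at hb
      simp only [Option.mem_def, Option.some.injEq] at ha hb
      subst ha hb
      exact hadj
    · intro a ha b hb
      exact dv1 a ha (k + 1) le_rfl hk b hb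
  have hSx : n + 1 ∉ ((SF n).take (k + 1)).toFinset := by
    have := List.mem_of_head? (hc.head (k + 1) (by omega) (by omega))
    rw [hS _ (by omega) hk] at this
    exact hxc _ (by omega) (by omega) _ this
  have ok3 : Ok (((L ++ [g]) ++ v (k + 1)) ++ (c (k + 1)).map (insert (n + 1))) := by
    refine ok2.append_strong ((hc.ok _ (by omega) (by omega)).ins (hxc _ (by omega) (by omega))) ?_ ?_
    · intro a ha b hb
      rw [List.getLast?_append, hv.last (k + 1) (by omega) hk] at ha
      rw [List.head?_map, hc.head (k + 1) (by omega) (by omega), hS _ (by omega) hk] at hb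
      simp only [Option.some_or, Option.mem_def, Option.some.injEq, Option.map_some] at ha hb
      subst ha hb
      exact adj_ins hSx
    · intro a ha b hb hba
      rw [List.mem_map] at hb
      obtain ⟨b', hb', rfl⟩ := hb
      rcases List.mem_append.1 ha with ha | ha
      · exact dc1 a ha (k + 1) le_rfl (by omega) b' hb' hba
      · exact hxv _ (by omega) hk a ha (hba (Finset.mem_insert_self _ _))
  refine ⟨ok3, ?_, ?_, ?_, ?_⟩
  · intro a ha l hl1 hl2 b hb hba
    rcases List.mem_append.1 ha with ha | ha
    · rcases List.mem_append.1 ha with ha | ha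
      · exact dv1 a ha l (by omega) hl2 b hb hba
      · exact hv.cross (k + 1) l (by omega) (by omega) hl2 a ha b hb hba
    · rw [List.mem_map] at ha
      obtain ⟨a', ha', rfl⟩ := ha
      have h1 := sub_of_sub_ins (hxv l (by omega) hl2 b hb) hba
      have h2 := Finset.card_le_card h1
      have h3 := hv.card l (by omega) hl2 b hb
      have h4 := hc.card (k + 1) (by omega) (by omega) a' ha'
      omega
  · intro a ha l hl1 hl2 b hb hba
    rcases List.mem_append.1 ha with ha | ha
    · rcases List.mem_append.1 ha with ha | ha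
      · exact dc1 a ha l (by omega) hl2 b hb hba
      · exact hxv _ (by omega) hk a ha (hba (Finset.mem_insert_self _ _))
    · rw [List.mem_map] at ha
      obtain ⟨a', ha', rfl⟩ := ha
      exact hc.cross (k + 1) l (by omega) (by omega) hl2 a' ha' b hb
        (sub_of_ins_sub (hxc l (by omega) hl2 b hb) hba)
  · intro a ha
    rcases List.mem_append.1 ha with ha | ha
    · rcases List.mem_append.1 ha with ha | ha
      · rcases List.mem_append.1 ha with ha | ha
        · rcases h.mem a ha with h1 | ⟨j, hj1, hj2, hj⟩
          · left; omega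
          · exact Or.inr ⟨j, hj1, by omega, hj⟩
        · simp only [List.mem_singleton] at ha
          subst ha
          left
          have := Finset.card_le_card (Finset.erase_subset (n + 1) a)
          omega
      · exact Or.inr ⟨k + 1, by omega, le_rfl, ha⟩
    · rw [List.mem_map] at ha
      obtain ⟨a', ha', rfl⟩ := ha
      left
      rw [Finset.erase_insert (hxc (k + 1) (by omega) (by omega) a' ha')]
      have h4 := hc.card (k + 1) (by omega) (by omega) a' ha'
      omega
  · intro a ha
    have hsub : Finset.Icc 1 n ⊆ Finset.Icc 1 (n + 1) := Finset.Icc_subset_Icc_right (by omega)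
    rcases List.mem_append.1 ha with ha | ha
    · rcases List.mem_append.1 ha with ha | ha
      · rcases List.mem_append.1 ha with ha | ha
        · exact h.sub a ha
        · simp only [List.mem_singleton] at ha
          subst ha
          exact hgs.trans hsub
      · exact (hv.sub _ (by omega) hk a ha).trans hsub
    · rw [List.mem_map] at ha
      obtain ⟨a', ha', rfl⟩ := ha
      refine Finset.insert_subset (by simp) ((hc.sub _ (by omega) (by omega) a' ha').trans hsub)

/-- the low part of the path -/
def J1 (n : ℕ) (v c : ℕ → List (Finset ℕ)) : List (Finset ℕ) :=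
  (([] ++ [∅]) ++ v 1) ++ (c 1).map (insert (n + 1))

def J2 (n : ℕ) (v c : ℕ → List (Finset ℕ)) : List (Finset ℕ) :=
  ((J1 n v c ++ [{n - 2}]) ++ v 2) ++ (c 2).map (insert (n + 1))

def J3 (n : ℕ) (v c : ℕ → List (Finset ℕ)) : List (Finset ℕ) :=
  ((J2 n v c ++ [{n - 2, n}]) ++ v 3) ++ (c 3).map (insert (n + 1))

theorem HI_three {n top : ℕ} {v c : ℕ → List (Finset ℕ)} (hv : ASide n top v)
    (hc : CSide n (SF n) c) (hn : 13 ≤ n) (htop : top + 1 ≤ n) (h3 : 3 ≤ top) :
    HI n top v c 3 (J3 n v c) := by
  have hxv : ∀ j, 1 ≤ j → j ≤ top → ∀ a ∈ v j, n + 1 ∉ a := by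
    intro j h1 h2 a ha h
    have := hv.sub j h1 h2 a ha h
    simp at this
  have hJ0 : HJ n top v c 0 [] := ⟨by simp [Ok], by simp, by simp, by simp, by simp⟩
  have hJ1 : HJ n top v c 1 (J1 n v c) := by
    refine hJ0.step hv hc (fun _ _ _ => rfl) hn htop (by omega) ∅ (by simp) (by simp) (by simp)
      (by simp) (by simp) ?_
    refine Or.inl ⟨n - 1, by simp, ?_⟩
    simp [RR]
  have hc1 := hc.c1
  have hokc1 := hc.ok 1 le_rfl (by omega)
  have hl1 : (J1 n v c).getLast? = some (insert (n + 1) {n - 2}) := by
    unfold J1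
    rw [hc1, List.getLast?_append]
    simp
  have hd1 : ∀ a ∈ (J1 n v c).dropLast, n - 2 ∉ a := by
    intro a ha h
    unfold J1 at ha
    rw [hc1] at ha hokc1
    have : ([] ++ [∅] ++ v 1 ++ List.map (insert (n + 1)) [((SF n).take 1).toFinset, ∅, {n - 2}])
      = ([] ++ [∅] ++ v 1 ++ [insert (n + 1) ((SF n).take 1).toFinset, insert (n + 1) ∅]) ++
        [insert (n + 1) {n - 2}] := by simp
    rw [this, List.dropLast_concat] at ha
    simp only [List.nil_append, List.mem_append, List.mem_cons, List.not_mem_nil, or_false] at ha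
    rcases ha with (rfl | ha) | rfl | rfl
    · simp at h
    · exact hv.no1 a ha h
    · have h5 : n - 2 ∈ ((SF n).take 1).toFinset := by
        rcases Finset.mem_insert.1 h with h | h
        · omega
        · exact h
      exact hokc1.2.1 {n - 2} (by simp) (by
        intro y hy
        rw [Finset.mem_singleton] at hy
        subst hy
        exact h5)
    · rcases Finset.mem_insert.1 h with h | h
      · omega
      · simp at h
  have hJ2 : HJ n top v c 2 (J2 n v c) := by
    refine hJ1.step hv hc (fun _ _ _ => rfl) hn htop (by omega) {n - 2} ?_ ?_ ?_ (by simp) ?_ ?_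
    · intro a ha
      rw [hl1] at ha
      simp only [Option.mem_def, Option.some.injEq] at ha
      exact ha.symm
    · intro a ha h
      exact hd1 a ha (h (Finset.mem_singleton_self _))
    · rw [Finset.mem_singleton]; omega
    · intro y hy
      rw [Finset.mem_singleton] at hy
      rw [Finset.mem_Icc]; omega
    · refine Or.inl ⟨2, by rw [Finset.mem_singleton]; omega, ?_⟩
      have : RR n (1 + 1) = {n - 2, 2} := by simp [RR]
      rw [this, Finset.pair_comm]
  have hne2 : (c 2).map (insert (n + 1)) ≠ [] := by
    intro h0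
    rw [List.map_eq_nil_iff] at h0
    have := hc.last2
    rw [h0] at this; simp at this
  have hl2 : (J2 n v c).getLast? = some (insert (n + 1) {n - 2, n}) := by
    unfold J2
    rw [List.getLast?_append, List.getLast?_map, hc.last2]
    simp
  have hg2 : ({n - 2, n} : Finset ℕ).card = 2 := Finset.card_pair (by omega)
  have hd2 : ∀ a ∈ (J2 n v c).dropLast, ¬ ({n - 2, n} : Finset ℕ) ⊆ a := by
    intro a ha h
    unfold J2 at ha
    rw [List.dropLast_append_of_ne_nil hne2] at ha
    rcases List.mem_append.1 ha with ha | ha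
    · rcases List.mem_append.1 ha with ha | ha
      · rcases List.mem_append.1 ha with ha | ha
        · have hJ1l := hl1
          rw [List.getLast?_eq_some_iff] at hJ1l
          obtain ⟨M, hM⟩ := hJ1l
          rw [hM] at ha
          rcases List.mem_append.1 ha with ha | ha
          · exact hd1 a (by rw [hM, List.dropLast_concat]; exact ha)
              (h (Finset.mem_insert_self _ _))
          · simp only [List.mem_singleton] at ha
            subst ha
            have := h (show n ∈ ({n - 2, n} : Finset ℕ) by simp)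
            simp only [Finset.mem_insert, Finset.mem_singleton] at this
            omega
        · simp only [List.mem_singleton] at ha
          subst ha
          have := h (show n ∈ ({n - 2, n} : Finset ℕ) by simp)
          simp only [Finset.mem_singleton] at this
          omega
      · exact hv.no2 a ha h
    · rw [← List.map_dropLast, List.mem_map] at ha
      obtain ⟨a', ha', rfl⟩ := ha
      have h1 : ({n - 2, n} : Finset ℕ) ⊆ a' := by
        refine sub_of_sub_ins ?_ h
        simp only [Finset.mem_insert, Finset.mem_singleton]; omega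
      have h2 := hc.card 2 (by omega) (by omega) a' (List.dropLast_subset _ ha')
      have h3 : ({n - 2, n} : Finset ℕ) = a' := by
        apply Finset.eq_of_subset_of_card_le h1
        omega
      refine not_mem_dropLast_of_nodup (Ok.nodup _ (hc.ok 2 (by omega) (by omega)))
        hc.last2 ?_
      rw [h3]; exact ha'
  have hJ3 : HJ n top v c 3 (J3 n v c) := by
    refine hJ2.step hv hc (fun _ _ _ => rfl) hn htop (by omega) {n - 2, n} ?_ hd2 ?_ hg2 ?_ ?_
    · intro a ha
      rw [hl2] at ha
      simp only [Option.mem_def, Option.some.injEq] at ha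
      exact ha.symm
    · simp only [Finset.mem_insert, Finset.mem_singleton]; omega
    · intro y hy
      simp only [Finset.mem_insert, Finset.mem_singleton] at hy
      rw [Finset.mem_Icc]; omega
    · refine Or.inl ⟨1, by simp only [Finset.mem_insert, Finset.mem_singleton]; omega, ?_⟩
      have : RR n (2 + 1) = {n - 2, n, 1} := by simp [RR]
      rw [this]
      ext y
      simp only [Finset.mem_insert, Finset.mem_singleton]
      tauto
  refine ⟨hJ3.ok, ?_, ?_, hJ3.dv, hJ3.dc, hJ3.mem, hJ3.sub, ?_⟩
  · unfold J3 J2 J1; simp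
  · unfold J3
    rw [List.getLast?_append, List.getLast?_map, hc.last 3 (by omega) (by omega)]
    simp
  · have h1 := hv.len 1 (by omega) (by omega)
    have h2 := hv.len 2 (by omega) (by omega)
    have h3 := hv.len 3 (by omega) (by omega)
    have h4 := hc.len2
    have h5 := hc.len3
    have e1 : dl 1 = 0 := by simp [dl]
    have e2 : dl 2 = 0 := by simp [dl]
    have e3 : dl 3 = 2 := by simp [dl]
    obtain ⟨m, rfl⟩ : ∃ m, n = m + 1 := ⟨n - 1, by omega⟩
    have hs : ∑ j ∈ Finset.Icc 1 3, (m + 1).choose j =
        (m + 1).choose 1 + (m + 1).choose 2 + (m + 1).choose 3 := by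
      rw [show (Finset.Icc 1 3 : Finset ℕ) = {1, 2, 3} by decide]
      simp [add_assoc]
    have g1 : (m + 1).choose 1 = m + 1 := by simp
    have g2 : (m + 1).choose 2 = m + m.choose 2 := by
      rw [Nat.choose_succ_succ' m 1]; simp
    have g3 : (m + 1).choose 3 = m.choose 2 + m.choose 3 := Nat.choose_succ_succ' m 2
    rw [hs, g1, g2, g3]
    rw [e1] at h1
    rw [e2] at h2
    rw [e3] at h3
    simp only [Nat.add_sub_cancel, Nat.choose_one_right] at h1 h2 h3 h4 h5
    unfold J3 J2 J1
    rw [hc1]
    simp only [List.length_append, List.length_map, List.length_cons, List.length_nil]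
    omega

theorem HI_all {n top : ℕ} {v c : ℕ → List (Finset ℕ)} (hv : ASide n top v)
    (hc : CSide n (SF n) c) (hn : 13 ≤ n) (htop : top + 1 ≤ n) (k : ℕ) (h3 : 3 ≤ k)
    (hk : k ≤ top) : ∃ L, HI n top v c k L := by
  induction k, h3 using Nat.le_induction with
  | base => exact ⟨_, HI_three hv hc hn htop (by omega)⟩
  | succ k h3 ih =>
    obtain ⟨L, hL⟩ := ih (by omega)
    exact ⟨_, hL.step hv hc hn htop h3 hk⟩


theorem sum_choose_even (n : ℕ) (hn : 2 ≤ n) :
    (∑ j ∈ Finset.Icc 1 (n - 1), n.choose j) + 2 = 2 ^ n := by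
  obtain ⟨m, rfl⟩ : ∃ m, n = m + 1 := ⟨n - 1, by omega⟩
  rw [← Nat.sum_range_choose (m + 1), Finset.sum_range_succ, Finset.range_eq_Ico,
    Finset.sum_eq_sum_Ico_succ_bot (by omega)]
  simp only [Nat.choose_zero_right, Nat.choose_self, Nat.add_sub_cancel, zero_add]
  have : Finset.Icc 1 m = Finset.Ico 1 (m + 1) := by
    ext x; simp only [Finset.mem_Icc, Finset.mem_Ico]; omega
  rw [this]; ring

theorem sum_choose_odd (n : ℕ) (hn : 3 ≤ n) :
    (∑ j ∈ Finset.Icc 1 (n - 2), n.choose j) + 2 + n = 2 ^ n := by
  have h1 := sum_choose_even n (by omega)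
  have h2 : n - 1 = (n - 2) + 1 := by omega
  rw [h2, Finset.sum_Icc_succ_top (by omega)] at h1
  have h3 : n.choose (n - 2 + 1) = n := by
    rw [← h2]
    have := Nat.choose_symm (n := n) (k := 1) (by omega)
    rw [this]; simp
  omega

/-- the exact path for even `n` -/
theorem exact_even {n : ℕ} {v c : ℕ → List (Finset ℕ)} (hn : 13 ≤ n) (hev : n % 2 = 0)
    (hv : ASide n (n - 1) v) (hc : CSide n (SF n) c) :
    ∃ L : List (Finset ℕ), Ok L ∧ L.head? = some ∅ ∧ (∀ a ∈ L, a ⊆ Finset.Icc 1 (n + 1)) ∧
      L.length = 2 ^ (n + 1) := by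
  obtain ⟨L, h⟩ := HI_all hv hc hn (by omega) (n - 1) (by omega) le_rfl
  obtain ⟨h1, -, -⟩ := h.addT hv hc hn (by omega) (by omega) le_rfl
  refine ⟨_, h1, ?_, ?_, ?_⟩
  · rw [List.head?_append, h.head]; rfl
  · intro a ha
    have hsub : Finset.Icc 1 n ⊆ Finset.Icc 1 (n + 1) := Finset.Icc_subset_Icc_right (by omega)
    rcases List.mem_append.1 ha with ha | ha
    · exact h.sub a ha
    · simp only [List.mem_singleton] at ha
      subst ha
      refine Finset.insert_subset (by simp) ((TT_sub (by omega) (by omega)).trans hsub)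
  · have h2 := h.len
    have h3 := sum_choose_even n (by omega)
    rw [List.length_append, List.length_singleton, pow_succ]
    omega

/-- the exact path for odd `n` -/
theorem exact_odd {n : ℕ} {v c : ℕ → List (Finset ℕ)} (hn : 13 ≤ n) (hodd : n % 2 = 1)
    (hv : ASide n (n - 2) v) (hc : CSide n (SF n) c)
    (hno : ∀ k, 1 ≤ k → k ≤ n - 2 → ∀ a ∈ v k, ¬ Finset.Icc 1 (n - 1) ⊆ a)
    (hS : ((SF n).take (n - 1)).toFinset = Finset.Icc 1 (n - 1)) :
    ∃ L : List (Finset ℕ), Ok L ∧ L.head? = some ∅ ∧ (∀ a ∈ L, a ⊆ Finset.Icc 1 (n + 1)) ∧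
      L.length = 2 ^ (n + 1) := by
  obtain ⟨L, h⟩ := HI_all hv hc hn (by omega) (n - 2) (by omega) le_rfl
  have hxv : ∀ j, 1 ≤ j → j ≤ n - 2 → ∀ a ∈ v j, n + 1 ∉ a := by
    intro j h1 h2 a ha h
    have := hv.sub j h1 h2 a ha h
    simp at this
  have hxc : ∀ j, 1 ≤ j → j + 1 ≤ n → ∀ a ∈ c j, n + 1 ∉ a := by
    intro j h1 h2 a ha h
    have := hc.sub j h1 h2 a ha h
    simp at this
  have hcn := hc.card (n - 1) (by omega) (by omega)
  have hcS : (c (n - 1)).head? = some (Finset.Icc 1 (n - 1)) := by
    rw [hc.head (n - 1) (by omega) (by omega), hS]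
  have hcE := hc.last (n - 1) (by omega) (by omega)
  have hnd := Ok.nodup _ (hc.ok (n - 1) (by omega) (by omega))
  -- the reversed list
  set R := (c (n - 1)).reverse with hR
  have hRx : ∀ a ∈ R, n + 1 ∉ a := fun a ha => hxc (n - 1) (by omega) (by omega) a (by
    rw [hR, List.mem_reverse] at ha; exact ha)
  have hRm : ∀ a ∈ R, a ∈ c (n - 1) := fun a ha => by
    rw [hR, List.mem_reverse] at ha; exact ha
  have hRh : R.head? = some (E n (n - 1)) := by rw [hR, List.head?_reverse]; exact hcE
  have hRl : R.getLast? = some (Finset.Icc 1 (n - 1)) := by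
    rw [hR, List.getLast?_reverse]; exact hcS
  have hRnd : R.Nodup := by rw [hR, List.nodup_reverse]; exact hnd
  -- the end of the path
  set F : List (Finset ℕ) := [Finset.Icc 1 (n - 1), Finset.Icc 1 n, Finset.Icc 1 (n + 1),
    insert (n + 1) (TT n (n - 1))] with hF
  have hcTT := TT_card' (n := n) (k := n - 1) (by omega) (by omega)
  have hTs := TT_sub (n := n) (k := n - 1) (by omega) (by omega)
  have hxT : n + 1 ∉ TT n (n - 1) := by
    intro h'
    have := hTs h'
    simp at this
  have hcT : (insert (n + 1) (TT n (n - 1))).card = n := by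
    rw [Finset.card_insert_of_notMem hxT, hcTT]; omega
  have c1 : (Finset.Icc 1 (n - 1)).card = n - 1 := by simp
  have c2 : (Finset.Icc 1 n).card = n := by simp
  have c3 : (Finset.Icc 1 (n + 1)).card = n + 1 := by simp
  have okF : Ok F := by
    refine ⟨Or.inl ⟨n, by rw [Finset.mem_Icc]; omega, ?_⟩, ?_, Or.inl ⟨n + 1, by simp, ?_⟩, ?_,
      Or.inr ⟨4, ?_, ?_⟩, ?_, ?_⟩
    · ext y; simp only [Finset.mem_insert, Finset.mem_Icc]; omega
    · intro b hb hba
      have := Finset.card_le_card hba
      simp only [List.mem_cons, List.not_mem_nil, or_false] at hb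
      rcases hb with rfl | rfl
      · rw [c1, c3] at this; omega
      · rw [c1, hcT] at this; omega
    · ext y; simp only [Finset.mem_insert, Finset.mem_Icc]; omega
    · intro b hb hba
      simp only [List.mem_cons, List.not_mem_nil, or_false] at hb
      subst hb
      have := hba (Finset.mem_insert_self _ _)
      simp at this
    · unfold TT
      simp only [Finset.mem_insert, Finset.mem_union, Finset.mem_singleton, Finset.mem_Icc]
      omega
    · unfold TT
      ext y
      simp only [Finset.mem_insert, Finset.mem_union, Finset.mem_singleton, Finset.mem_Icc]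
      omega
    · simp
    · trivial
  -- first extension
  have ok1 : Ok (L ++ R.map (insert (n + 1))) := by
    refine h.ok.append_strong (hc.rev.ins hRx) ?_ ?_
    · intro a ha b hb
      rw [h.last] at ha
      rw [List.head?_map, hRh] at hb
      simp only [Option.mem_def, Option.some.injEq, Option.map_some] at ha hb
      subst ha hb
      refine Or.inl ⟨4, ?_, ?_⟩
      · unfold E
        simp only [Finset.mem_insert, Finset.mem_union, Finset.mem_singleton, Finset.mem_Icc]
        omega
      · unfold E
        ext y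
        simp only [Finset.mem_insert, Finset.mem_union, Finset.mem_singleton, Finset.mem_Icc]
        omega
    · intro a ha b hb hba
      rw [List.mem_map] at hb
      obtain ⟨b', hb', rfl⟩ := hb
      exact h.dc a ha (n - 1) (by omega) (by omega) b' (hRm b' hb') hba
  have ok2 : Ok ((L ++ R.map (insert (n + 1))) ++ F) := by
    refine ok1.append okF ?_ ?_ ?_
    · intro a ha b hb
      rw [List.getLast?_append, List.getLast?_map, hRl] at ha
      rw [hF, List.head?_cons] at hb
      simp only [Option.mem_def, Option.some.injEq, Option.map_some, Option.some_or] at ha hb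
      subst ha hb
      exact adj_ins' (by simp)
    · intro a ha b hb hba
      have hne : R.map (insert (n + 1)) ≠ [] := by
        intro h0
        rw [List.map_eq_nil_iff] at h0
        rw [h0] at hRh; simp at hRh
      rw [List.dropLast_append_of_ne_nil hne] at ha
      have key1 : ∀ a ∈ L, ∀ b ∈ F, ¬ b ⊆ a := by
        intro a ha b hb hba
        rcases h.mem a ha with h1 | ⟨j, hj1, hj2, hj⟩
        · have h2 := Finset.card_le_card (Finset.erase_subset_erase (n + 1) hba)
          simp only [hF, List.mem_cons, List.not_mem_nil, or_false] at hb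
          rcases hb with rfl | rfl | rfl | rfl
          · rw [Finset.erase_eq_of_notMem (by simp), c1] at h2; omega
          · rw [Finset.erase_eq_of_notMem (by simp), c2] at h2; omega
          · rw [Finset.card_erase_of_mem (by simp), c3] at h2; omega
          · rw [Finset.erase_insert hxT, hcTT] at h2; omega
        · have h3 : Finset.Icc 1 (n - 1) ⊆ a ∨ n + 1 ∈ a := by
            simp only [hF, List.mem_cons, List.not_mem_nil, or_false] at hb
            rcases hb with rfl | rfl | rfl | rfl
            · exact Or.inl hba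
            · exact Or.inl ((Finset.Icc_subset_Icc_right (by omega)).trans hba)
            · exact Or.inl ((Finset.Icc_subset_Icc_right (by omega)).trans hba)
            · exact Or.inr (hba (Finset.mem_insert_self _ _))
          rcases h3 with h3 | h3
          · exact hno j hj1 hj2 a hj h3
          · exact hxv j hj1 hj2 a hj h3
      rcases List.mem_append.1 ha with ha | ha
      · exact key1 a ha b hb hba
      · rw [← List.map_dropLast, List.mem_map] at ha
        obtain ⟨a', ha', rfl⟩ := ha
        have ham := hRm a' (List.dropLast_subset _ ha')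
        have hac := hcn a' ham
        simp only [hF, List.mem_cons, List.not_mem_nil, or_false] at hb
        rcases hb with rfl | rfl | rfl | rfl
        · have h1 := sub_of_sub_ins (by simp) hba
          have h2 : Finset.Icc 1 (n - 1) = a' := by
            apply Finset.eq_of_subset_of_card_le h1
            omega
          subst h2
          exact not_mem_dropLast_of_nodup hRnd hRl ha'
        · have h1 := Finset.card_le_card (sub_of_sub_ins (by simp) hba)
          omega
        · have h1 := Finset.card_le_card hba
          have := Finset.card_insert_le (n + 1) a'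
          omega
        · have h1 := sub_of_ins_sub hxT hba
          have h2 : TT n (n - 1) = a' := by
            apply Finset.eq_of_subset_of_card_le h1
            omega
          refine hc.inv (n - 1) (by omega) (by omega) a' ham ?_
          rw [T_eq (by omega), h2]
    · intro a ha b hb hba
      rw [List.getLast?_append, List.getLast?_map, hRl] at ha
      simp only [Option.mem_def, Option.some.injEq, Option.map_some, Option.some_or] at ha
      subst ha
      have h1 := Finset.card_le_card hba
      rw [Finset.card_insert_of_notMem (by simp), c1] at h1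
      simp only [hF, List.tail_cons, List.mem_cons, List.not_mem_nil, or_false] at hb
      rcases hb with rfl | rfl | rfl
      · have := hba (show n ∈ Finset.Icc 1 n by rw [Finset.mem_Icc]; omega)
        simp only [Finset.mem_insert, Finset.mem_Icc] at this
        omega
      · rw [c3] at h1; omega
      · have h2 := sub_of_ins_sub hxT hba
        have := h2 (show n ∈ TT n (n - 1) by
          unfold TT
          simp only [Finset.mem_insert, Finset.mem_union, Finset.mem_singleton, Finset.mem_Icc]
          omega)
        simp at this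
        omega
  refine ⟨_, ok2, ?_, ?_, ?_⟩
  · rw [List.head?_append, List.head?_append, h.head]; rfl
  · intro a ha
    have hsub : Finset.Icc 1 n ⊆ Finset.Icc 1 (n + 1) := Finset.Icc_subset_Icc_right (by omega)
    rcases List.mem_append.1 ha with ha | ha
    · rcases List.mem_append.1 ha with ha | ha
      · exact h.sub a ha
      · rw [List.mem_map] at ha
        obtain ⟨a', ha', rfl⟩ := ha
        refine Finset.insert_subset (by simp)
          ((hc.sub _ (by omega) (by omega) a' (hRm a' ha')).trans hsub)
    · simp only [hF, List.mem_cons, List.not_mem_nil, or_false] at ha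
      rcases ha with rfl | rfl | rfl | rfl
      · exact Finset.Icc_subset_Icc_right (by omega)
      · exact hsub
      · exact Finset.Subset.refl _
      · exact Finset.insert_subset (by simp) (hTs.trans hsub)
  · have h2 := h.len
    have h3 := sum_choose_odd n (by omega)
    have h4 := hc.len (n - 1) (by omega) (by omega)
    have h5 : (n - 1).choose (n - 1 - 1) = n - 1 := by
      have := Nat.choose_symm (n := n - 1) (k := 1) (by omega)
      rw [this]; simp
    rw [h5] at h4
    rw [hF]
    simp only [List.length_append, List.length_map, List.length_cons, List.length_nil, hR,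
      List.length_reverse, pow_succ]
    omega

end Pool.Agent.Helper868.FTX
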