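import Mathlib
import Pool.Agent.Helper868.FTX.Asm
import Pool.Agent.Helper621.FT.AFinal
import Pool.Agent.Helper621.FT.CFinal

set_option autoImplicit false

namespace Pool.Agent.Helper868.FTX

open Pool.Agent.Helper605.FT Pool.Agent.Helper732.FT2 Pool.Agent.Helper722.FX

/-- the first part of the flag -/
def sg (n : ℕ) : List ℕ :=
  if n % 2 = 1 then 5 :: 1 :: (n - 1) :: 4 :: List.range' 6 (n - 9)
  else 4 :: 5 :: 1 :: (n - 1) :: List.range' 6 (n - 9)

theorem SF_eq (n : ℕ) : SF n = sg n ++ [2, 3, n - 3, n - 2, n] := by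
  unfold SF sg
  split_ifs <;> simp

theorem sg_ne (n : ℕ) : sg n ≠ [] := by
  unfold sg
  split_ifs <;> simp

theorem sg_len {n : ℕ} (hn : 13 ≤ n) : (sg n).length = n - 5 := by
  unfold sg
  split_ifs <;> simp <;> omega

theorem mem_sg {n a : ℕ} (hn : 13 ≤ n) :
    a ∈ sg n ↔ a = 1 ∨ a = 4 ∨ a = 5 ∨ a = n - 1 ∨ (6 ≤ a ∧ a ≤ n - 4) := by
  unfold sg
  split_ifs <;> simp only [List.mem_cons, List.mem_range'_1] <;> omega

theorem rnd (s k : ℕ) : (List.range' s k).Nodup ↔ True :=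
  ⟨fun _ => trivial, fun _ => List.nodup_range'⟩

theorem sg_nodup {n : ℕ} (hn : 13 ≤ n) : (sg n).Nodup := by
  unfold sg
  split_ifs <;> simp only [List.nodup_cons, List.mem_cons, List.mem_range'_1, rnd,
    and_true] <;> omega

theorem sg_last {n : ℕ} (hn : 13 ≤ n) : (sg n).getLast? ≠ some 1 := by
  obtain ⟨m, hm⟩ : ∃ m, n - 9 = m + 1 := ⟨n - 10, by omega⟩
  unfold sg
  rw [hm, List.range'_concat]
  split_ifs
  · rw [show (5 :: 1 :: (n - 1) :: 4 :: (List.range' 6 m ++ [6 + 1 * m]) : List ℕ) =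
      (5 :: 1 :: (n - 1) :: 4 :: List.range' 6 m) ++ [6 + 1 * m] by simp, List.getLast?_concat]
    simp; omega
  · rw [show (4 :: 5 :: 1 :: (n - 1) :: (List.range' 6 m ++ [6 + 1 * m]) : List ℕ) =
      (4 :: 5 :: 1 :: (n - 1) :: List.range' 6 m) ++ [6 + 1 * m] by simp, List.getLast?_concat]
    simp; omega

theorem sg_perm {n : ℕ} (hn : 13 ≤ n) : (sg n ++ [2, 3, n - 3]).Perm (sX (n - 1)) := by
  have h1 : (sg n ++ [2, 3, n - 3]).Nodup := by
    rw [List.nodup_append]
    refine ⟨sg_nodup hn, ?_, ?_⟩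
    · simp only [List.nodup_cons, List.mem_cons, List.not_mem_nil, or_false, List.nodup_nil,
        and_true, not_false_eq_true]
      omega
    · intro a ha b hb
      rw [mem_sg hn] at ha
      simp only [List.mem_cons, List.not_mem_nil, or_false] at hb
      omega
  have h2 : (sX (n - 1)).Nodup := by
    unfold sX
    simp only [List.nodup_cons, List.mem_cons, List.mem_range'_1, rnd, and_true]
    omega
  rw [List.perm_ext_iff_of_nodup h1 h2]
  intro a
  rw [List.mem_append, mem_sg hn]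
  unfold sX
  simp only [List.mem_cons, List.mem_range'_1, List.not_mem_nil, or_false]
  omega

theorem SF_take {n : ℕ} (hn : 13 ≤ n) : ((SF n).take (n - 1)).toFinset = Finset.Icc 1 (n - 1) := by
  have h1 : SF n = (sg n ++ [2, 3, n - 3, n - 2]) ++ [n] := by rw [SF_eq]; simp
  have h2 : (sg n ++ [2, 3, n - 3, n - 2]).length = n - 1 := by
    rw [List.length_append, sg_len hn]
    simp only [List.length_cons, List.length_nil]
    omega
  rw [h1, List.take_left' h2]
  ext a
  rw [List.mem_toFinset, List.mem_append, mem_sg hn]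
  simp only [List.mem_cons, List.not_mem_nil, or_false, Finset.mem_Icc]
  omega

/-- the exact path for `N ≥ 14` -/
theorem big (N : ℕ) (hN : 14 ≤ N) : ∃ L : List (Finset ℕ), Ok L ∧ L.head? = some ∅ ∧
    (∀ a ∈ L, a ⊆ Finset.Icc 1 N) ∧ L.length = 2 ^ N := by
  obtain ⟨n, rfl⟩ : ∃ n, N = n + 1 := ⟨N - 1, by omega⟩
  have hn : 13 ≤ n := by omega
  obtain ⟨c, hc⟩ := Pool.Agent.Helper621.FT.c_side_all n hn (sg n) (sg_perm hn) (sg_ne n) (sg_last hn)
  rw [← SF_eq] at hc
  rcases Nat.mod_two_eq_zero_or_one n with h | h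
  · obtain ⟨v, hv⟩ := Pool.Agent.Helper621.FT.a_even hn h
    exact exact_even hn h hv hc
  · obtain ⟨v, hv, hno⟩ := Pool.Agent.Helper621.FT.a_odd hn h
    exact exact_odd hn h hv hc hno (SF_take hn)

end Pool.Agent.Helper868.FTX
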