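import Mathlib
import Pool.Agent.Helper605.FT.A
import Pool.Agent.Helper605.FT.AL
import Pool.Agent.Helper605.FT.Conv

set_option autoImplicit false

namespace Pool.Agent.Helper868.FTX

open Pool.Agent.Helper605.FT

/-- an exact list on `1..n` gives the ordering of all subsets of `Fin n` -/
theorem frozen_of_lists (H : ∀ n : ℕ, 1 ≤ n → ∃ L : List (Finset ℕ), Ok L ∧ L.head? = some ∅ ∧
      (∀ a ∈ L, a ⊆ Finset.Icc 1 n) ∧ L.length = 2 ^ n) :
    ∀ n : ℕ, 1 ≤ n →
      ∃ A : Fin (2 ^ n) ≃ Finset (Fin n),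
        (∀ i : Fin (2 ^ n), i.val = 0 → A i = ∅) ∧
        (∀ i j : Fin (2 ^ n), j.val = i.val + 1 →
            (A i ⊂ A j ∨ A j ⊂ A i) ∧ (symmDiff (A i) (A j)).card = 1) ∧
        (∀ i j : Fin (2 ^ n), A i ⊂ A j → j < i → i.val = j.val + 1) := by
  intro n hn
  obtain ⟨L, hok, hh, hsub, hlen⟩ := H n hn
  have hnd := Ok.nodup L hok
  have hlt : ∀ i : Fin (2 ^ n), i.val < L.length := fun i => by rw [hlen]; exact i.isLt
  set f : Fin (2 ^ n) → Finset (Fin n) := fun i => gF n (L[i.val]'(hlt i)) with hf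
  have hsub' : ∀ i : Fin (2 ^ n), L[i.val]'(hlt i) ⊆ Finset.Icc 1 n := fun i =>
    hsub _ (List.getElem_mem _)
  have hinj : Function.Injective f := by
    intro i j hij
    have h1 := gF_inj (hsub' i) (hsub' j) hij
    have h2 := (hnd.getElem_inj_iff).1 h1
    exact Fin.ext h2
  have hbij : Function.Bijective f := by
    rw [Fintype.bijective_iff_injective_and_card]
    exact ⟨hinj, by simp⟩
  refine ⟨Equiv.ofBijective f hbij, ?_, ?_, ?_⟩
  · intro i hi
    show f i = ∅
    have : L[i.val]'(hlt i) = ∅ := by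
      cases L with
      | nil => simp at hh
      | cons a L =>
        simp only [List.head?_cons, Option.some.injEq] at hh
        simp [hi, hh]
    simp only [hf, this]
    ext x; simp [mem_gF]
  · intro i j hij
    have h1 := hok.adj i.val (by rw [← hij]; exact hlt j)
    have h2 : L[j.val]'(hlt j) = L[i.val + 1]'(by rw [← hij]; exact hlt j) := by
      simp [hij]
    exact gF_adj (hsub' i) (hsub' j) (by rw [h2]; exact h1)
  · intro i j hij hji
    by_contra hne
    have h1 := hok.nback i.val j.val (by have : j.val < i.val := hji; omega) (hlt i)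
    exact h1 ((gF_sub (hsub' i)).1 hij.subset)

end Pool.Agent.Helper868.FTX
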