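import Mathlib
import Pool.Agent.Helper868.FTX.Big
import Pool.Agent.Helper868.FTX.Lay
import Pool.Agent.Helper868.FTX.Sm
import Pool.Agent.Helper605.FX.Small9

set_option autoImplicit false

namespace Pool.Agent.Helper868.FTX

open Pool.Agent.Helper605.FT Pool.Agent.Helper605.FX

/-- the exact order of all subsets of `{1, ..., N}`, as a list -/
theorem lists (N : ℕ) : ∃ L : List (Finset ℕ), Ok L ∧ L.head? = some ∅ ∧
    (∀ a ∈ L, a ⊆ Finset.Icc 1 N) ∧ L.length = 2 ^ N := by
  rcases Nat.lt_or_ge N 14 with h | h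
  · rcases Nat.lt_or_ge N 10 with h9 | h9
    · exact small9 N (by omega)
    · obtain rfl | rfl | rfl | rfl : N = 10 ∨ N = 11 ∨ N = 12 ∨ N = 13 := by omega
      · exact small_of_code _ _ c10
      · exact small_of_code _ _ c11
      · exact small_of_code _ _ c12
      · exact small_of_code _ _ c13
  · exact big N h

/-- the Felsner-Trotter order exists for every `n` -/
theorem main :
    ∀ n : ℕ, 1 ≤ n →
      ∃ A : Fin (2 ^ n) ≃ Finset (Fin n),
        (∀ i : Fin (2 ^ n), i.val = 0 → A i = ∅) ∧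
        (∀ i j : Fin (2 ^ n), j.val = i.val + 1 →
            (A i ⊂ A j ∨ A j ⊂ A i) ∧ (symmDiff (A i) (A j)).card = 1) ∧
        (∀ i j : Fin (2 ^ n), A i ⊂ A j → j < i → i.val = j.val + 1) :=
  frozen_of_lists (fun n _ => lists n)

end Pool.Agent.Helper868.FTX
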